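import Pool.Agent.K9h53.AF.Defs

set_option autoImplicit false

/-! # Families of vector valued functions which are given by few polynomials -/

namespace Pool.Agent.K9h53.AF

open Finset MvPolynomial

variable {N : ℕ} {Δ Δ' Δ'' : Dom N} {d : ℕ}

/-- A family of vector valued functions which are given by polynomials in finitely many
parameters. -/
structure Fam {N : ℕ} (Δ : Dom N) (Y : Type) (d : ℕ) where
  σ : Type
  inst : Fintype σ
  P : Y → Fin d → MvPolynomial σ Δ.K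

instance {Y : Type} (F : Fam Δ Y d) : Fintype F.σ := F.inst

variable {Y : Type} {M D D' W W' : ℕ} {𝒢 𝒢' : Set (Y → Fin d → Δ.K)}

/-- The functions in `𝒢` are given by finitely many families of polynomials of degree at most `D`;
a family with `p` parameters is counted with the weight `M ^ p`. -/
def Cov (M D W : ℕ) (𝒢 : Set (Y → Fin d → Δ.K)) : Prop :=
  ∃ (κ : Type) (_ : Fintype κ) (F : κ → Fam Δ Y d),
    (∀ k v j, ((F k).P v j).totalDegree ≤ D) ∧ (∑ k, M ^ Fintype.card (F k).σ ≤ W) ∧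
    ∀ g ∈ 𝒢, ∃ (k : κ) (θ : (F k).σ → Δ.K), ∀ v j, g v j = eval θ ((F k).P v j)

theorem Cov.mono (h : Cov M D W 𝒢) (hd : D ≤ D') (hW : W ≤ W') (hG : 𝒢' ⊆ 𝒢) :
    Cov M D' W' 𝒢' := by
  obtain ⟨κ, _, F, h1, h2, h3⟩ := h
  exact ⟨κ, _, F, fun k v j => (h1 k v j).trans hd, h2.trans hW, fun g hg => h3 g (hG hg)⟩

theorem cov_of_finite {κ : Type} [Fintype κ] (f : κ → Y → Fin d → Δ.K) :
    Cov M 0 (Fintype.card κ) (Set.range f) := by
  refine ⟨κ, inferInstance, fun k => ⟨Empty, inferInstance, fun v j => C (f k v j)⟩,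
    fun k v j => ?_, ?_, ?_⟩
  · simp
  · simp only [Fintype.card_empty, pow_zero, sum_const, card_univ, smul_eq_mul, mul_one]
    exact le_rfl
  · rintro g ⟨k, rfl⟩
    exact ⟨k, fun e => e.elim, fun v j => by simp⟩

/-- constant functions -/
theorem cov_const : Cov M 1 (M ^ d) {g : Y → Fin d → Δ.K | ∃ θ : Fin d → Δ.K, g = fun _ => θ} := by
  refine ⟨Unit, inferInstance, fun _ => ⟨Fin d, inferInstance, fun _ j => X j⟩,
    fun k v j => ?_, ?_, ?_⟩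
  · simp only
    rw [totalDegree_X]
  · simp only [sum_const, card_univ, smul_eq_mul, Fintype.card_unit, one_mul]
    rw [show Fintype.card (Fin d) = d from Fintype.card_fin d]
  · rintro g ⟨θ, rfl⟩
    exact ⟨(), θ, fun v j => by simp⟩

/-- matrices from a finite family which are applied to the functions of a family -/
theorem Cov.act {κ : Type} [Fintype κ] (f : κ → Y → Fin d → Fin d → Δ.K) (h : Cov M D W 𝒢) :
    Cov M D (Fintype.card κ * W)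
      {g' | ∃ k, ∃ g ∈ 𝒢, g' = fun v j => ∑ a, f k v j a * g v a} := by
  obtain ⟨κ', _, F, h1, h2, h3⟩ := h
  refine ⟨κ × κ', inferInstance, fun k => ⟨(F k.2).σ, inferInstance,
    fun v j => ∑ a, C (f k.1 v j a) * (F k.2).P v a⟩, fun k v j => ?_, ?_, ?_⟩
  · refine (totalDegree_finsetSum _ _).trans (Finset.sup_le fun a _ => ?_)
    refine (totalDegree_mul _ _).trans ?_
    rw [totalDegree_C, zero_add]
    exact h1 _ _ _
  · rw [Fintype.sum_prod_type]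
    calc ∑ _x : κ, ∑ k, M ^ Fintype.card (F k).σ
        = Fintype.card κ * ∑ k, M ^ Fintype.card (F k).σ := by
          rw [Finset.sum_const, Finset.card_univ, smul_eq_mul]
      _ ≤ _ := Nat.mul_le_mul_left _ h2
  · rintro g' ⟨k, g, hg, rfl⟩
    obtain ⟨k', θ, hk⟩ := h3 g hg
    refine ⟨(k, k'), θ, fun v j => ?_⟩
    simp only [map_sum, map_mul, eval_C, hk]

/-- sums and bilinear maps -/
theorem Cov.prod {D₁ D₂ W₁ W₂ : ℕ} {𝒢₁ 𝒢₂ : Set (Y → Fin d → Δ.K)} (h₁ : Cov M D₁ W₁ 𝒢₁)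
    (h₂ : Cov M D₂ W₂ 𝒢₂) :
    Cov M (D₁ + D₂) (W₁ * W₂) {g | ∃ g₁ ∈ 𝒢₁, ∃ g₂ ∈ 𝒢₂, g = fun v j => g₁ v j + g₂ v j} ∧
    ∀ b : Fin d → Fin d → Fin d → Δ.K, Cov M (D₁ + D₂) (W₁ * W₂) {g | ∃ g₁ ∈ 𝒢₁, ∃ g₂ ∈ 𝒢₂,
      g = fun v j => ∑ a, ∑ e, b a e j * (g₁ v a * g₂ v e)} := by
  obtain ⟨κ₁, _, F₁, a1, a2, a3⟩ := h₁
  obtain ⟨κ₂, _, F₂, b1, b2, b3⟩ := h₂
  have hsum : ∑ k : κ₁ × κ₂, M ^ (Fintype.card ((F₁ k.1).σ ⊕ (F₂ k.2).σ)) ≤ W₁ * W₂ := by
    rw [Fintype.sum_prod_type]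
    calc ∑ x : κ₁, ∑ y : κ₂, M ^ (Fintype.card ((F₁ x).σ ⊕ (F₂ y).σ))
        = (∑ x : κ₁, M ^ Fintype.card (F₁ x).σ) * ∑ y : κ₂, M ^ Fintype.card (F₂ y).σ := by
          rw [sum_mul]
          refine sum_congr rfl fun x _ => ?_
          rw [mul_sum]
          exact sum_congr rfl fun y _ => by rw [Fintype.card_sum, pow_add]
      _ ≤ W₁ * W₂ := Nat.mul_le_mul a2 b2
  have e1 : ∀ (k : κ₁ × κ₂) (θ₁ : (F₁ k.1).σ → Δ.K) (θ₂ : (F₂ k.2).σ → Δ.K) (v : Y) (j : Fin d),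
      eval (Sum.elim θ₁ θ₂) (rename Sum.inl ((F₁ k.1).P v j)) = eval θ₁ ((F₁ k.1).P v j) := by
    intro k θ₁ θ₂ v j
    rw [eval_rename, Sum.elim_comp_inl]
  have e2 : ∀ (k : κ₁ × κ₂) (θ₁ : (F₁ k.1).σ → Δ.K) (θ₂ : (F₂ k.2).σ → Δ.K) (v : Y) (j : Fin d),
      eval (Sum.elim θ₁ θ₂) (rename Sum.inr ((F₂ k.2).P v j)) = eval θ₂ ((F₂ k.2).P v j) := by
    intro k θ₁ θ₂ v j
    rw [eval_rename, Sum.elim_comp_inr]
  have d1 : ∀ (k : κ₁ × κ₂) (v : Y) (j : Fin d),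
      (rename (Sum.inl : _ → (F₁ k.1).σ ⊕ (F₂ k.2).σ) ((F₁ k.1).P v j)).totalDegree ≤ D₁ :=
    fun k v j => (totalDegree_rename_le _ _).trans (a1 _ _ _)
  have d2 : ∀ (k : κ₁ × κ₂) (v : Y) (j : Fin d),
      (rename (Sum.inr : _ → (F₁ k.1).σ ⊕ (F₂ k.2).σ) ((F₂ k.2).P v j)).totalDegree ≤ D₂ :=
    fun k v j => (totalDegree_rename_le _ _).trans (b1 _ _ _)
  constructor
  · refine ⟨κ₁ × κ₂, inferInstance, fun k => ⟨(F₁ k.1).σ ⊕ (F₂ k.2).σ, inferInstance,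
      fun v j => rename Sum.inl ((F₁ k.1).P v j) + rename Sum.inr ((F₂ k.2).P v j)⟩,
      fun k v j => ?_, hsum, ?_⟩
    · refine (totalDegree_add _ _).trans (max_le ?_ ?_)
      · exact (d1 k v j).trans (by omega)
      · exact (d2 k v j).trans (by omega)
    · rintro g ⟨g₁, hg₁, g₂, hg₂, rfl⟩
      obtain ⟨k₁, θ₁, h1⟩ := a3 g₁ hg₁
      obtain ⟨k₂, θ₂, h2⟩ := b3 g₂ hg₂
      refine ⟨(k₁, k₂), Sum.elim θ₁ θ₂, fun v j => ?_⟩
      simp only
      rw [map_add, e1 (k₁, k₂), e2 (k₁, k₂), ← h1, ← h2]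
  · intro b
    refine ⟨κ₁ × κ₂, inferInstance, fun k => ⟨(F₁ k.1).σ ⊕ (F₂ k.2).σ, inferInstance,
      fun v j => ∑ a, ∑ e, C (b a e j) * (rename Sum.inl ((F₁ k.1).P v a) *
        rename Sum.inr ((F₂ k.2).P v e))⟩,
      fun k v j => ?_, hsum, ?_⟩
    · refine (totalDegree_finsetSum _ _).trans (Finset.sup_le fun a _ => ?_)
      refine (totalDegree_finsetSum _ _).trans (Finset.sup_le fun e _ => ?_)
      refine (totalDegree_mul _ _).trans ?_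
      rw [totalDegree_C, zero_add]
      exact (totalDegree_mul _ _).trans (add_le_add (d1 k v a) (d2 k v e))
    · rintro g ⟨g₁, hg₁, g₂, hg₂, rfl⟩
      obtain ⟨k₁, θ₁, h1⟩ := a3 g₁ hg₁
      obtain ⟨k₂, θ₂, h2⟩ := b3 g₂ hg₂
      refine ⟨(k₁, k₂), Sum.elim θ₁ θ₂, fun v j => ?_⟩
      simp only
      rw [map_sum]
      refine sum_congr rfl fun a _ => ?_
      rw [map_sum]
      refine sum_congr rfl fun e _ => ?_
      rw [map_mul, map_mul, eval_C, e1 (k₁, k₂), e2 (k₁, k₂), ← h1, ← h2]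

open Classical in
/-- few patterns -/
theorem Cov.bool [Fintype Y] (h : Cov M D W 𝒢) (t : Fin Δ.T) (l : Fin d → Δ.K)
    (hM : 4 * Fintype.card Y * D + 2 ≤ M) (hN : N ≤ M) :
    ∃ S : Finset (Y → Bool), S.card ≤ W ∧
      ∀ g ∈ 𝒢, (fun v => Δ.pos t (∑ j, l j * g v j)) ∈ S := by
  obtain ⟨κ, _, F, h1, h2, h3⟩ := h
  obtain ⟨Q, hQ⟩ : ∃ Q : (k : κ) → Y → MvPolynomial (F k).σ Δ.K, Q = fun k v =>
    ∑ j, C (l j) * (F k).P v j := ⟨_, rfl⟩
  have hQd : ∀ k v, (Q k v).totalDegree ≤ D := by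
    intro k v
    rw [hQ]
    refine (totalDegree_finsetSum _ _).trans (Finset.sup_le fun j _ => ?_)
    refine (totalDegree_mul _ _).trans ?_
    rw [totalDegree_C, zero_add]
    exact h1 k v j
  have hQe : ∀ k v (θ : (F k).σ → Δ.K), eval θ (Q k v) = ∑ j, l j * eval θ ((F k).P v j) := by
    intro k v θ
    rw [hQ]
    simp only [map_sum, map_mul, eval_C]
  refine ⟨univ.biUnion (fun k : κ => (Set.toFinite (Set.range (fun θ : (F k).σ → Δ.K => fun v : Y =>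
    Δ.pos t (eval θ (Q k v))))).toFinset), ?_, ?_⟩
  · refine card_biUnion_le.trans (le_trans ?_ h2)
    apply sum_le_sum
    intro k _
    rw [← Set.ncard_eq_toFinset_card]
    exact Δ.patterns t (Q k) D M (hQd k) hM hN
  · intro g hg
    obtain ⟨k, θ, hk⟩ := h3 g hg
    rw [mem_biUnion]
    refine ⟨k, mem_univ _, ?_⟩
    rw [Set.Finite.mem_toFinset]
    refine ⟨θ, ?_⟩
    funext v
    simp only [hQe, hk]

/-- affine images -/
def affs (𝒢 : Set (Y → Fin d → Δ.K)) : Set (Y → Fin d → Δ.K) :=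
  {g' | ∃ g ∈ 𝒢, ∃ (A : Fin d → Fin d → Δ.K) (b : Fin d → Δ.K),
    g' = fun v j => ∑ a, A j a * g v a + b j}

/-- functions of a test of an affine form -/
def tsts (Δ : Dom N) (𝒢 : Set (Y → Fin d → Δ'.K)) : Set (Y → Fin d → Δ.K) :=
  {g' | ∃ g ∈ 𝒢, ∃ (t : Fin Δ'.T) (h : Bool → Fin d → Δ.K) (c : Fin d → Δ'.K) (e : Δ'.K),
    g' = fun v => h (Δ'.pos t (∑ a, c a * g v a + e))}

theorem subset_affs (𝒢 : Set (Y → Fin d → Δ.K)) : 𝒢 ⊆ affs 𝒢 := by
  intro g hg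
  refine ⟨g, hg, fun j a => if j = a then 1 else 0, fun _ => 0, ?_⟩
  funext v j
  simp

theorem affs_affs {𝒢 𝒢' : Set (Y → Fin d → Δ.K)} (h : 𝒢' ⊆ affs 𝒢) : affs 𝒢' ⊆ affs 𝒢 := by
  rintro _ ⟨g', hg', A, b, rfl⟩
  obtain ⟨g, hg, A', b', rfl⟩ := h hg'
  refine ⟨g, hg, fun j a => ∑ k, A j k * A' k a, fun j => ∑ k, A j k * b' k + b j, ?_⟩
  funext v j
  simp only [mul_add, sum_add_distrib, mul_sum, sum_mul]
  rw [sum_comm]
  simp only [mul_assoc]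
  ring

theorem tsts_affs {𝒢 𝒢' : Set (Y → Fin d → Δ'.K)} (h : 𝒢' ⊆ affs 𝒢) : tsts Δ 𝒢' ⊆ tsts Δ 𝒢 := by
  rintro _ ⟨g', hg', t, φ, c, e, rfl⟩
  obtain ⟨g, hg, A, b, rfl⟩ := h hg'
  refine ⟨g, hg, t, φ, fun a => ∑ k, c k * A k a, ∑ k, c k * b k + e, ?_⟩
  funext v
  have : ∑ k, c k * (∑ a, A k a * g v a + b k) + e =
      ∑ a, (∑ k, c k * A k a) * g v a + (∑ k, c k * b k + e) := by
    simp only [mul_add, sum_add_distrib, mul_sum, sum_mul]
    rw [sum_comm]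
    simp only [mul_assoc]
    ring
  simp only [this]

theorem affs_tsts {𝒢 : Set (Y → Fin d → Δ'.K)} {𝒢' : Set (Y → Fin d → Δ.K)} (h : 𝒢' ⊆ tsts Δ 𝒢) :
    affs 𝒢' ⊆ tsts Δ 𝒢 := by
  rintro _ ⟨g', hg', A, b, rfl⟩
  obtain ⟨g, hg, t, φ, c, e, rfl⟩ := h hg'
  exact ⟨g, hg, t, fun β j => ∑ a, A j a * φ β a + b j, c, e, rfl⟩

theorem tsts_tsts {𝒢 : Set (Y → Fin d → Δ'.K)} {𝒢' : Set (Y → Fin d → Δ.K)} (h : 𝒢' ⊆ tsts Δ 𝒢) :
    tsts Δ'' 𝒢' ⊆ tsts Δ'' 𝒢 := by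
  rintro _ ⟨g', hg', t', φ', c', e', rfl⟩
  obtain ⟨g, hg, t, φ, c, e, rfl⟩ := h hg'
  exact ⟨g, hg, t, fun β => φ' (Δ.pos t' (∑ a, c' a * φ β a + e')), c, e, rfl⟩

/-- the affine images and the functions of tests are given by few polynomials -/
def Both (M D W : ℕ) (𝒢 : Set (Y → Fin d → Δ'.K)) : Prop :=
  Cov M D W (affs 𝒢) ∧ ∀ Δ : Dom N, Cov M D W (tsts Δ 𝒢)

theorem Both.cov {𝒢 : Set (Y → Fin d → Δ.K)} (h : Both M D W 𝒢) : Cov M D W 𝒢 :=
  h.1.mono le_rfl le_rfl (subset_affs 𝒢)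

theorem Both.mono {𝒢 : Set (Y → Fin d → Δ.K)} (h : Both M D W 𝒢) (hD : D ≤ D') (hW : W ≤ W') :
    Both M D' W' 𝒢 :=
  ⟨h.1.mono hD hW subset_rfl, fun Δ => (h.2 Δ).mono hD hW subset_rfl⟩

theorem Both.of_affs {𝒢 𝒢' : Set (Y → Fin d → Δ.K)} (h : Both M D W 𝒢) (hG : 𝒢' ⊆ affs 𝒢) :
    Both M D W 𝒢' :=
  ⟨h.1.mono le_rfl le_rfl (affs_affs hG), fun Δ => (h.2 Δ).mono le_rfl le_rfl (tsts_affs hG)⟩

theorem Both.of_subset {𝒢 𝒢' : Set (Y → Fin d → Δ.K)} (h : Both M D W 𝒢) (hG : 𝒢' ⊆ 𝒢) :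
    Both M D W 𝒢' := h.of_affs (hG.trans (subset_affs 𝒢))

theorem Both.of_tsts {𝒢 : Set (Y → Fin d → Δ'.K)} {𝒢' : Set (Y → Fin d → Δ.K)}
    (h : Both M D W 𝒢) (hG : 𝒢' ⊆ tsts Δ 𝒢) : Both M D W 𝒢' :=
  ⟨(h.2 Δ).mono le_rfl le_rfl (affs_tsts hG), fun Δ'' => (h.2 Δ'').mono le_rfl le_rfl (tsts_tsts hG)⟩

open Classical in
/-- affine images and tests -/
theorem Cov.both [Fintype Y] {𝒢 : Set (Y → Fin d → Δ'.K)} (h : Cov M D W 𝒢)
    (hM : 4 * Fintype.card Y * (D + 1) + 2 ≤ M) (hN : N ≤ M) :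
    Both M (D + 1) (W * (M ^ (d ^ 2 + d) + M ^ (3 * d + 2))) 𝒢 := by
  obtain ⟨κ, _, F, h1, h2, h3⟩ := h
  -- the affine form which is tested
  obtain ⟨Q, hQ⟩ : ∃ Q : (k : κ) → Y → MvPolynomial ((F k).σ ⊕ (Fin d ⊕ Unit)) Δ'.K, Q = fun k v =>
    ∑ a, X (Sum.inr (Sum.inl a)) * rename Sum.inl ((F k).P v a) + X (Sum.inr (Sum.inr ())) :=
      ⟨_, rfl⟩
  have hdeg : ∀ k v a (τ : Type) (x : (F k).σ ⊕ τ),
      (X x * rename Sum.inl ((F k).P v a) : MvPolynomial ((F k).σ ⊕ τ) Δ'.K).totalDegree ≤ D + 1 := by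
    intro k v a τ x
    refine (totalDegree_mul _ _).trans ?_
    rw [totalDegree_X, add_comm]
    exact Nat.add_le_add_right ((totalDegree_rename_le _ _).trans (h1 k v a)) 1
  have hQd : ∀ k v, (Q k v).totalDegree ≤ D + 1 := by
    intro k v
    rw [hQ]
    refine (totalDegree_add _ _).trans (max_le ?_ ?_)
    · refine (totalDegree_finsetSum _ _).trans (Finset.sup_le fun a _ => ?_)
      exact hdeg k v a _ _
    · rw [totalDegree_X]
      omega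
  have hQe : ∀ k v (θ : (F k).σ → Δ'.K) (c : Fin d → Δ'.K) (e : Δ'.K),
      eval (Sum.elim θ (Sum.elim c (fun _ => e))) (Q k v) =
        ∑ a, c a * eval θ ((F k).P v a) + e := by
    intro k v θ c e
    rw [hQ]
    simp only [map_add, map_sum, map_mul, eval_X, eval_rename, Sum.elim_inr, Sum.elim_inl,
      Sum.elim_comp_inl]
  obtain ⟨R, hR⟩ : ∃ R : κ → Fin Δ'.T → Set (Y → Bool), R = fun k t =>
      Set.range (fun θ : (F k).σ ⊕ (Fin d ⊕ Unit) → Δ'.K => fun v : Y =>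
        Δ'.pos t (eval θ (Q k v))) := ⟨_, rfl⟩
  have hRc : ∀ k t, Fintype.card (R k t) ≤ M ^ (Fintype.card (F k).σ + (d + 1)) := by
    intro k t
    rw [← Nat.card_eq_fintype_card, Nat.card_coe_set_eq, hR]
    refine (Δ'.patterns t (Q k) (D + 1) M (hQd k) hM hN).trans (le_of_eq ?_)
    rw [Fintype.card_sum, Fintype.card_sum, Fintype.card_fin, Fintype.card_unit]
  constructor
  · refine ⟨κ, inferInstance, fun k => ⟨(F k).σ ⊕ (Fin d × Fin d ⊕ Fin d), inferInstance, fun v j =>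
        ∑ a, X (Sum.inr (Sum.inl (j, a))) * rename Sum.inl ((F k).P v a) +
          X (Sum.inr (Sum.inr j))⟩, ?_, ?_, ?_⟩
    · intro k v j
      refine (totalDegree_add _ _).trans (max_le ?_ ?_)
      · refine (totalDegree_finsetSum _ _).trans (Finset.sup_le fun a _ => ?_)
        exact hdeg k v a _ _
      · rw [totalDegree_X]
        omega
    · have c1 : ∀ k : κ, Fintype.card ((F k).σ ⊕ (Fin d × Fin d ⊕ Fin d)) =
          Fintype.card (F k).σ + (d ^ 2 + d) := by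
        intro k
        rw [Fintype.card_sum, Fintype.card_sum, Fintype.card_prod, Fintype.card_fin]
        ring
      calc ∑ k, M ^ Fintype.card ((F k).σ ⊕ (Fin d × Fin d ⊕ Fin d))
          = (∑ k, M ^ Fintype.card (F k).σ) * M ^ (d ^ 2 + d) := by
            rw [sum_mul]
            exact sum_congr rfl fun k _ => by rw [c1, pow_add]
        _ ≤ W * (M ^ (d ^ 2 + d) + M ^ (3 * d + 2)) := Nat.mul_le_mul h2 (Nat.le_add_right _ _)
    · rintro g' ⟨g, hg, A, b, rfl⟩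
      obtain ⟨k, θ, hk⟩ := h3 g hg
      refine ⟨k, Sum.elim θ (Sum.elim (fun p => A p.1 p.2) b), fun v j => ?_⟩
      simp only [map_add, map_sum, map_mul, eval_X, eval_rename, Sum.elim_inr, Sum.elim_inl,
        Sum.elim_comp_inl, hk]
  · intro Δ
    refine ⟨(Σ k : κ, Σ t : Fin Δ'.T, R k t), inferInstance, fun k => 
      ⟨Fin d ⊕ Fin d, inferInstance, fun v j =>
        X (if k.2.2.1 v = true then Sum.inl j else Sum.inr j)⟩, ?_, ?_, ?_⟩
    · intro k v j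
      simp only
      rw [totalDegree_X]
      omega
    · have c2 : Fintype.card (Fin d ⊕ Fin d) = 2 * d := by
        rw [Fintype.card_sum, Fintype.card_fin]
        ring
      have c3 : ∀ k : κ, ∑ t : Fin Δ'.T, Fintype.card (R k t) ≤
          M * M ^ (Fintype.card (F k).σ + (d + 1)) := by
        intro k
        calc ∑ t : Fin Δ'.T, Fintype.card (R k t)
            ≤ ∑ _t : Fin Δ'.T, M ^ (Fintype.card (F k).σ + (d + 1)) := sum_le_sum fun t _ => hRc k t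
          _ = Δ'.T * M ^ (Fintype.card (F k).σ + (d + 1)) := by
            rw [sum_const, card_univ, Fintype.card_fin, smul_eq_mul]
          _ ≤ _ := Nat.mul_le_mul_right _ (Δ'.le.trans hN)
      calc ∑ _k : (Σ k : κ, Σ t : Fin Δ'.T, R k t), M ^ Fintype.card (Fin d ⊕ Fin d)
          = ∑ k, (∑ t : Fin Δ'.T, Fintype.card (R k t)) * M ^ (2 * d) := by
            rw [Fintype.sum_sigma]
            refine sum_congr rfl fun k _ => ?_
            rw [Fintype.sum_sigma]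
            simp only [sum_const, card_univ, smul_eq_mul, c2, sum_mul]
        _ ≤ ∑ k, (M * M ^ (Fintype.card (F k).σ + (d + 1))) * M ^ (2 * d) :=
            sum_le_sum fun k _ => Nat.mul_le_mul_right _ (c3 k)
        _ = (∑ k, M ^ Fintype.card (F k).σ) * M ^ (3 * d + 2) := by
            rw [sum_mul]
            refine sum_congr rfl fun k _ => ?_
            rw [show 3 * d + 2 = 1 + (d + 1) + 2 * d by ring,
              pow_add _ _ (d + 1), pow_add _ (1 + (d + 1)) (2 * d), pow_add _ 1 (d + 1)]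
            ring
        _ ≤ W * (M ^ (d ^ 2 + d) + M ^ (3 * d + 2)) := Nat.mul_le_mul h2 (Nat.le_add_left _ _)
    · rintro g' ⟨g, hg, t, h, c, e, rfl⟩
      obtain ⟨k, θ, hk⟩ := h3 g hg
      refine ⟨⟨k, t, ⟨fun v => Δ'.pos t (eval (Sum.elim θ (Sum.elim c
        (fun _ => e))) (Q k v)), ?_⟩⟩, Sum.elim (h true) (h false), fun v j => ?_⟩
      · rw [hR]
        exact ⟨_, rfl⟩
      · simp only [eval_X, hQe, hk]
        split_ifs with h9
        · rw [h9, Sum.elim_inl]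
        · rw [Bool.not_eq_true] at h9
          rw [h9, Sum.elim_inr]

end Pool.Agent.K9h53.AF
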