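import Pool.Agent.K9h53.AF.Dom
import Pool.Agent.N452.TF.Core

set_option autoImplicit false

/-! # Formulas of bilinear maps over arbitrary rings, branching programs, and circuits of shared bits

The wires of a formula carry vectors of dimension `d` over a ring with tests (`Dom`); a gate may apply any
bilinear map to two vectors, or a matrix which depends on the input to one vector. The formulas which are
tested by a branching program may be formulas over different rings.

The leaves (`Leaf`, `Word`) and the inputs with additional bits (`Ext`, `ext`) are those of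
`Pool.Agent.N452.TF.Defs`; the definitions below follow that file, with rings with tests for `ℝ`. -/

namespace Pool.Agent.K9h53.AF

open Finset
open Pool.Agent.N452.TF (Word Leaf Ext ext)

/-- Formulas over the ring with tests `Δ`. Their values are vectors in `K ^ d`, `K` the ring of `Δ`. The gates
are: constants, leaves with vectors as values, gates `act` which apply a matrix to a vector (the matrix is
the value of a leaf), sums, arbitrary bilinear maps of two vectors (given by their tensors), gates `test`
whose value is one of two arbitrary vectors, according to the result of a test of a linear form of the value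
of a formula over another (or the same) ring, and gates `sym` of any fan-in `k` whose value is an arbitrary
function of the number of the positive ones among `k` results of tests of linear forms of the values of
formulas over arbitrary rings. -/
inductive Fml {N : ℕ} (ι : Type) (D : ι → Type) (w q d : ℕ) : Dom N → Type 1
  | const : {Δ : Dom N} → (Fin d → Δ.K) → Fml ι D w q d Δ
  | leaf : {Δ : Dom N} → Leaf ι D w q (Fin d → Δ.K) → Fml ι D w q d Δ
  | act : {Δ : Dom N} → Leaf ι D w q (Fin d → Fin d → Δ.K) → Fml ι D w q d Δ → Fml ι D w q d Δ
  | add : {Δ : Dom N} → Fml ι D w q d Δ → Fml ι D w q d Δ → Fml ι D w q d Δ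
  | bil : {Δ : Dom N} → (Fin d → Fin d → Fin d → Δ.K) → Fml ι D w q d Δ → Fml ι D w q d Δ →
      Fml ι D w q d Δ
  | test : {Δ : Dom N} → (Δ' : Dom N) → Fin Δ'.T → (Fin d → Δ'.K) → (Bool → Fin d → Δ.K) →
      Fml ι D w q d Δ' → Fml ι D w q d Δ
  | sym : {Δ : Dom N} → (k : ℕ) → (Δ' : Fin k → Dom N) → ((i : Fin k) → Fin (Δ' i).T) →
      ((i : Fin k) → Fin d → (Δ' i).K) → (ℕ → Fin d → Δ.K) →
      ((i : Fin k) → Fml ι D w q d (Δ' i)) → Fml ι D w q d Δ

namespace Fml

variable {N : ℕ} {ι : Type} {D : ι → Type} {w q d : ℕ}

/-- The value of the formula. -/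
def eval : {Δ : Dom N} → Fml ι D w q d Δ → (∀ i, D i) → Fin d → Δ.K
  | _, const c, _ => c
  | _, leaf L, x => L.val x
  | _, act L F, x => fun j => ∑ a, L.val x j a * F.eval x a
  | _, add F G, x => fun j => F.eval x j + G.eval x j
  | _, bil b F G, x => fun j => ∑ a, ∑ e, b a e j * (F.eval x a * G.eval x e)
  | _, test Δ' t l h F, x => h (Δ'.pos t (∑ j, l j * F.eval x j))
  | _, sym _ Δ' t l h F, x =>
      h (univ.filter (fun i => (Δ' i).pos (t i) (∑ j, l i j * (F i).eval x j) = true)).card

/-- The size, if a reading of the coordinate `i` costs `c i`; the wires which lead to gates `sym`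
are counted, too. -/
def size (c : ι → ℕ) : {Δ : Dom N} → Fml ι D w q d Δ → ℕ
  | _, const _ => 0
  | _, leaf L => L.size c
  | _, act L F => L.size c + F.size c
  | _, add F G => F.size c + G.size c
  | _, bil _ F G => F.size c + G.size c
  | _, test _ _ _ _ F => F.size c
  | _, sym k _ _ _ _ F => k + ∑ j, (F j).size c

/-- Does some leaf see a coordinate in the set `A`? -/
def Sees (A : Set ι) : {Δ : Dom N} → Fml ι D w q d Δ → Prop
  | _, const _ => False
  | _, leaf L => L.Sees A
  | _, act L F => L.Sees A ∨ F.Sees A
  | _, add F G => F.Sees A ∨ G.Sees A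
  | _, bil _ F G => F.Sees A ∨ G.Sees A
  | _, test _ _ _ _ F => F.Sees A
  | _, sym _ _ _ _ _ F => ∃ j, (F j).Sees A

/-- The result of the test `t` of the sum of the coordinates of the value. -/
def accepts {Δ : Dom N} (F : Fml ι D w q d Δ) (t : Fin Δ.T) (x : ∀ i, D i) : Bool :=
  Δ.pos t (∑ j, F.eval x j)

end Fml

/-- Branching programs with `n` inner nodes. The nodes are numbered: `0` and `1` are the two sinks,
`2, 3, …, n + 1` are the inner nodes. An inner node is labelled with a ring with tests, one of the tests and
a formula over this ring, and its two successors are nodes with smaller numbers. -/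
inductive BP (N : ℕ) (ι : Type) (D : ι → Type) (w q d : ℕ) : ℕ → Type 1
  | sinks : BP N ι D w q d 0
  | node : {n : ℕ} → BP N ι D w q d n → (Δ : Dom N) → Fin Δ.T → Fml ι D w q d Δ →
      (no yes : Fin (n + 2)) → BP N ι D w q d (n + 1)

namespace BP

variable {N : ℕ} {ι : Type} {D : ι → Type} {w q d : ℕ}

/-- The value of the sink which is reached from a node (`0` rejects, `1` accepts). An inner node
leads to its successor `yes` if the test of its formula is positive. -/
def val : {n : ℕ} → BP N ι D w q d n → (∀ i, D i) → Fin (n + 2) → Bool
  | _, sinks, _, v => decide (v = 1)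
  | _, node B _ t F no yes, x, v =>
      Fin.lastCases (motive := fun _ => Bool) (if F.accepts t x then B.val x yes else B.val x no)
        (fun u => B.val x u) v

/-- The size: the number of the inner nodes plus the sizes of all formulas. -/
def size (c : ι → ℕ) : {n : ℕ} → BP N ι D w q d n → ℕ
  | _, sinks => 0
  | _, node B _ _ F _ _ => B.size c + (F.size c + 1)

/-- Does some leaf see a coordinate in the set `A`? -/
def Sees (A : Set ι) : {n : ℕ} → BP N ι D w q d n → Prop
  | _, sinks => False
  | _, node B _ _ F _ _ => B.Sees A ∨ F.Sees A

end BP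

/-- A branching program with a start node. -/
structure Program (N : ℕ) (ι : Type) (D : ι → Type) (w q d : ℕ) where
  /-- number of inner nodes -/
  nodes : ℕ
  bp : BP N ι D w q d nodes
  start : Fin (nodes + 2)

/-- The result of the computation. -/
def Program.eval {N : ℕ} {ι : Type} {D : ι → Type} {w q d : ℕ} (B : Program N ι D w q d)
    (x : ∀ i, D i) : Bool :=
  B.bp.val x B.start

/-- Circuits with `m` shared bits: every bit is computed by a branching program from the items and
the bits before it. -/
inductive Circ (N : ℕ) (ι : Type) (D : ι → Type) (w q d : ℕ) : ℕ → Type 1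
  | nil : Circ N ι D w q d 0
  | snoc : {m : ℕ} → Circ N ι D w q d m → Program N (ι ⊕ Fin m) (Ext D m) w q d →
      Circ N ι D w q d (m + 1)

namespace Circ

variable {N : ℕ} {ι : Type} {D : ι → Type} {w q d : ℕ}

/-- The values of the bits. -/
def val : {m : ℕ} → Circ N ι D w q d m → (∀ i, D i) → Fin m → Bool
  | _, nil, _ => fun j => j.elim0
  | _, snoc C P, x => Fin.lastCases (motive := fun _ => Bool) (P.eval (ext x (C.val x)))
      (fun j => C.val x j)

/-- The items and bits which depend on the item `i`: the item itself, and the bits whose programs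
see the item or an earlier bit which depends on it. -/
def Dep (i : ι) : {m : ℕ} → Circ N ι D w q d m → Set (ι ⊕ Fin m)
  | _, nil => {Sum.inl i}
  | _, snoc (m := m) C P => fun a => a = Sum.inl i ∨
      (∃ j : Fin m, a = Sum.inr j.castSucc ∧ Sum.inr j ∈ Dep i C) ∨
      (a = Sum.inr (Fin.last m) ∧ P.bp.Sees (Dep i C))

open Classical in
/-- The price of an item or a bit: the number of the items in `I` on which it depends. -/
noncomputable def price (I : Finset ι) {m : ℕ} (C : Circ N ι D w q d m) (a : ι ⊕ Fin m) : ℕ :=
  (I.filter (fun i => a ∈ C.Dep i)).card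

/-- The cost: the inner nodes of all programs, the wires which lead to gates `sym`, and the
prices of all items and bits which are seen by the leaves. -/
noncomputable def cost (I : Finset ι) : {m : ℕ} → Circ N ι D w q d m → ℕ
  | _, nil => 0
  | _, snoc C P => C.cost I + P.bp.size (C.price I)

end Circ

/-- A circuit whose last bit is the output. -/
structure Circuit (N : ℕ) (ι : Type) (D : ι → Type) (w q d : ℕ) where
  /-- number of shared bits before the output -/
  bits : ℕ
  circ : Circ N ι D w q d (bits + 1)

/-- The output of the circuit. -/
def Circuit.eval {N : ℕ} {ι : Type} {D : ι → Type} {w q d : ℕ} (C : Circuit N ι D w q d)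
    (x : ∀ i, D i) : Bool :=
  C.circ.val x (Fin.last _)

end Pool.Agent.K9h53.AF
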