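import Mathlib
import Pool.Agent.Helper448.Warren

/-!
Rings with tests: zero tests over an integral domain, sign tests over the real numbers, arbitrary tests over
a small ring. There are few patterns of the results of the tests of polynomials.
-/

set_option autoImplicit false

namespace Pool.Agent.K9h53.AF

open Finset MvPolynomial

/-- A commutative ring `K` with at most `N` tests of its elements: either `K` is an integral domain (for
example a field) and the tests ask whether an element is not zero, or `K` is the field of the real numbers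
(up to an isomorphism) and the tests ask whether an element is positive, or `K` is a finite ring with at most
`N` elements, and the tests are arbitrary. -/
structure Dom (N : ℕ) where
  /-- the elements -/
  K : Type
  /-- the operations -/
  ring : CommRing K
  /-- `0 ≠ 1` -/
  nt : Nontrivial K
  /-- the number of the tests -/
  T : ℕ
  le : T ≤ N
  /-- the tests -/
  pos : Fin T → K → Bool
  ok : (IsDomain K ∧ ∀ t x, pos t x = true ↔ x ≠ 0) ∨
    (∃ e : K ≃+* ℝ, ∀ t x, pos t x = true ↔ 0 < e x) ∨ (Finite K ∧ Nat.card K ≤ N)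

attribute [instance] Dom.ring Dom.nt

/-- the exponent vectors of total degree at most `m` -/
noncomputable def expo (σ : Type) [Fintype σ] [DecidableEq σ] (m : ℕ) : Finset (σ →₀ ℕ) :=
  (range (m + 1)).biUnion fun i => (univ : Finset σ).finsuppAntidiag i

theorem mem_expo {σ : Type} [Fintype σ] [DecidableEq σ] {m : ℕ} {n : σ →₀ ℕ} :
    n ∈ expo σ m ↔ (n.sum fun _ e => e) ≤ m := by
  unfold expo
  simp only [mem_biUnion, mem_range, mem_finsuppAntidiag, subset_univ, and_true]
  have h : (n.sum fun _ e => e) = (univ : Finset σ).sum n := by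
    rw [Finsupp.sum_fintype]
    simp
  rw [h]
  constructor
  · rintro ⟨i, hi, h2⟩
    omega
  · intro h2
    exact ⟨_, by omega, rfl⟩

theorem card_expo (σ : Type) [Fintype σ] [DecidableEq σ] (m : ℕ) :
    (expo σ m).card = (m + Fintype.card σ).choose (Fintype.card σ) := by
  unfold expo
  rw [card_biUnion]
  · rw [← Nat.sum_range_multichoose]
    refine sum_congr rfl fun i _ => ?_
    rw [card_finsuppAntidiag_nat_eq_multichoose, card_univ]
  · intro i _ j _ hij
    rw [Function.onFun, disjoint_left]
    intro n h1 h2
    rw [mem_finsuppAntidiag] at h1 h2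
    exact hij (h1.1.symm.trans h2.1)

variable {K : Type} [CommRing K] [Nontrivial K]

theorem finrank_le (σ : Type) [Fintype σ] (m : ℕ) :
    Module.finrank K (restrictTotalDegree σ K m) = (m + Fintype.card σ).choose (Fintype.card σ) := by
  classical
  have e : {n : σ →₀ ℕ | (n.sum fun _ e => e) ≤ m} = ((expo σ m : Finset (σ →₀ ℕ)) : Set (σ →₀ ℕ)) := by
    ext n
    simp [mem_expo]
  have h1 : Module.finrank K (restrictTotalDegree σ K m)
      = Nat.card {n : σ →₀ ℕ | (n.sum fun _ e => e) ≤ m} :=
    Module.finrank_eq_nat_card_basis (basisRestrictSupport K _)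
  rw [h1, e, ← card_expo]
  simp

theorem fin_rank (σ : Type) [Fintype σ] (m : ℕ) : Module.Finite K (restrictTotalDegree σ K m) := by
  classical
  have : Finite {n : σ →₀ ℕ | (n.sum fun _ e => e) ≤ m} := by
    have e : {n : σ →₀ ℕ | (n.sum fun _ e => e) ≤ m} =
        ((expo σ m : Finset (σ →₀ ℕ)) : Set (σ →₀ ℕ)) := by
      ext n
      simp [mem_expo]
    rw [e]
    exact Finite.of_fintype _
  exact Module.Finite.of_basis (basisRestrictSupport K _)

/-- **Zero patterns** (Rónyai-Babai-Ganapathy). -/
theorem zeroPat [IsDomain K] {σ ι : Type} [Fintype σ] [Fintype ι] (D : ℕ) (f : ι → MvPolynomial σ K)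
    (hf : ∀ i, (f i).totalDegree ≤ D) :
    (Set.range fun z : σ → K => (fun i : ι => (¬ MvPolynomial.eval z (f i) = 0))).ncard ≤
      (Fintype.card ι * D + Fintype.card σ).choose (Fintype.card σ) := by
  classical
  set P : (σ → K) → Finset ι := fun z => univ.filter fun i : ι => MvPolynomial.eval z (f i) = 0
    with hP
  have hfin : (Set.range P).Finite := Set.toFinite _
  have hw : ∀ S : Set.range P, ∃ z : σ → K, P z = S.1 := fun S => S.2
  choose z hz using hw
  set g : Set.range P → MvPolynomial σ K := fun S => ∏ i ∈ univ \ S.1, f i with hg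
  have hdeg : ∀ S, (g S).totalDegree ≤ Fintype.card ι * D := by
    intro S
    refine (totalDegree_finsetProd _ _).trans ?_
    refine (sum_le_card_nsmul _ _ D fun i _ => hf i).trans ?_
    rw [smul_eq_mul]
    exact Nat.mul_le_mul_right _ (card_le_univ _)
  have heval : ∀ S T, MvPolynomial.eval (z T) (g S) ≠ 0 ↔ T.1 ⊆ S.1 := by
    intro S T
    rw [hg]
    simp only [map_prod]
    rw [prod_ne_zero_iff]
    constructor
    · intro h i hi
      by_contra hiS
      have := h i (mem_sdiff.2 ⟨mem_univ _, hiS⟩)
      rw [← hz T, hP] at hi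
      exact this (mem_filter.1 hi).2
    · intro h i hi h0
      have : i ∈ P (z T) := mem_filter.2 ⟨mem_univ _, h0⟩
      rw [hz T] at this
      exact (mem_sdiff.1 hi).2 (h this)
  have : Fintype (Set.range P) := hfin.fintype
  have hli : LinearIndependent K g := by
    rw [Fintype.linearIndependent_iff]
    intro c hc
    by_contra hne
    push Not at hne
    obtain ⟨S0, hS0⟩ := hne
    obtain ⟨T, hT, hmax⟩ := exists_max_image (univ.filter fun S : Set.range P => c S ≠ 0)
      (fun S => S.1.card) ⟨S0, mem_filter.2 ⟨mem_univ _, hS0⟩⟩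
    have h1 := congrArg (MvPolynomial.eval (z T)) hc
    rw [map_sum, map_zero] at h1
    rw [sum_eq_single T] at h1
    · rw [smul_eval] at h1
      rcases mul_eq_zero.1 h1 with h2 | h2
      · exact (mem_filter.1 hT).2 h2
      · exact (heval T T).2 (subset_refl _) h2
    · intro S _ hST
      rw [smul_eval]
      by_cases hcS : c S = 0
      · rw [hcS, zero_mul]
      · have h3 : MvPolynomial.eval (z T) (g S) = 0 := by
          by_contra h4
          have h5 := (heval S T).1 h4
          have h6 := hmax S (mem_filter.2 ⟨mem_univ _, hcS⟩)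
          exact hST (Subtype.ext (eq_of_subset_of_card_le h5 h6).symm)
        rw [h3, mul_zero]
    · intro h
      exact absurd (mem_univ _) h
  have hli' : LinearIndependent K (fun S : Set.range P =>
      (⟨g S, (mem_restrictTotalDegree _ _ _).2 (hdeg S)⟩ :
        restrictTotalDegree σ K (Fintype.card ι * D))) :=
    LinearIndependent.of_comp (restrictTotalDegree σ K (Fintype.card ι * D)).subtype hli
  have := fin_rank (K := K) σ (Fintype.card ι * D)
  have := hli'.fintype_card_le_finrank
  rw [finrank_le] at this
  have e : (Set.range fun z : σ → K => (fun i : ι => (¬ MvPolynomial.eval z (f i) = 0))) =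
      (fun S : Finset ι => fun i => i ∉ S) '' Set.range P := by
    ext h
    simp only [Set.mem_range, Set.mem_image, exists_exists_eq_and, hP, mem_filter, mem_univ, true_and]
  rw [e]
  refine (Set.ncard_image_le hfin).trans ?_
  rw [← Nat.card_coe_set_eq, Nat.card_eq_fintype_card]
  exact this

theorem choose_le (m p : ℕ) : (m + p).choose p ≤ (m + 1) ^ p := by
  induction p with
  | zero => simp
  | succ p ih =>
    have h1 := Nat.add_one_mul_choose_eq (m + p) p
    -- `(m+p+1) C(m+p, p) = C(m+p+1, p+1) (p+1)`
    have h2 : (m + p + 1) * (m + p).choose p ≤ (m + 1) * (p + 1) * (m + p).choose p := by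
      apply Nat.mul_le_mul_right
      nlinarith
    have h3 : (m + p + 1).choose (p + 1) * (p + 1) ≤ ((m + 1) * (m + p).choose p) * (p + 1) := by
      rw [← h1]
      refine h2.trans (le_of_eq ?_)
      ring
    have h4 := Nat.le_of_mul_le_mul_right h3 (Nat.succ_pos p)
    calc (m + (p + 1)).choose (p + 1) = (m + p + 1).choose (p + 1) := by rw [← add_assoc]
      _ ≤ (m + 1) * (m + p).choose p := h4
      _ ≤ (m + 1) * (m + 1) ^ p := Nat.mul_le_mul_left _ ih
      _ = _ := by ring

/-- few patterns of tests -/
theorem Dom.patterns {N : ℕ} (Δ : Dom N) (t : Fin Δ.T) {σ Y : Type} [Fintype σ] [Fintype Y]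
    (Q : Y → MvPolynomial σ Δ.K) (D M : ℕ) (hQ : ∀ v, (Q v).totalDegree ≤ D)
    (hM : 4 * Fintype.card Y * D + 2 ≤ M) (hN : N ≤ M) :
    (Set.range fun θ : σ → Δ.K => fun v : Y => Δ.pos t (eval θ (Q v))).ncard ≤
      M ^ Fintype.card σ := by
  classical
  rcases Δ.ok with ⟨hd, h⟩ | ⟨e, h⟩ | ⟨hfin, h⟩
  · have h1 := zeroPat D Q hQ
    have e1 : (Set.range fun θ : σ → Δ.K => fun v : Y => Δ.pos t (eval θ (Q v))) =
        (fun S : Y → Prop => fun v => decide (S v)) ''
          (Set.range fun z : σ → Δ.K => (fun i : Y => (¬ MvPolynomial.eval z (Q i) = 0))) := by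
      rw [← Set.range_comp]
      congr 1
      funext θ v
      simp only [Function.comp]
      rw [Bool.eq_iff_iff, h]
      simp
    rw [e1]
    refine (Set.ncard_image_le (Set.toFinite _)).trans (h1.trans ((choose_le _ _).trans ?_))
    apply Nat.pow_le_pow_left
    nlinarith [Nat.zero_le (Fintype.card Y * D)]
  · have h1 := Pool.Agent.Helper448.Warren.ncard_sign_patterns_le
      (fun v => MvPolynomial.map (e : Δ.K →+* ℝ) (Q v)) D (fun v =>
        (Finset.sup_mono (support_map_subset _ _)).trans (hQ v))
    have e1 : (Set.range fun θ : σ → Δ.K => fun v : Y => Δ.pos t (eval θ (Q v))) ⊆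
        (fun S : Y → SignType => fun v => decide (S v = 1)) ''
          (Set.range (fun θ : σ → ℝ => fun v : Y =>
            SignType.sign (eval θ (MvPolynomial.map (e : Δ.K →+* ℝ) (Q v))))) := by
      rintro _ ⟨θ, rfl⟩
      refine ⟨_, ⟨fun a => e (θ a), rfl⟩, ?_⟩
      funext v
      simp only
      rw [Bool.eq_iff_iff, h, decide_eq_true_iff, sign_eq_one_iff]
      have e2 : eval (fun a => e (θ a)) (MvPolynomial.map (e : Δ.K →+* ℝ) (Q v)) = e (eval θ (Q v)) := by
        rw [eval_map]
        have := MvPolynomial.eval₂_comp_left (e : Δ.K →+* ℝ) (RingHom.id _) θ (Q v)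
        simp only [RingHom.comp_id] at this
        exact this.symm
      rw [e2]
    exact (Set.ncard_le_ncard e1 (Set.toFinite _)).trans
      ((Set.ncard_image_le (Set.toFinite _)).trans (h1.trans (Nat.pow_le_pow_left hM _)))
  · have h1 : (Set.range fun θ : σ → Δ.K => fun v : Y => Δ.pos t (eval θ (Q v))).ncard ≤
        Nat.card (σ → Δ.K) := by
      rw [← Set.image_univ]
      refine (Set.ncard_image_le (Set.toFinite _)).trans ?_
      rw [Set.ncard_univ]
    refine h1.trans ?_
    rw [Nat.card_fun, Nat.card_eq_fintype_card (α := σ)]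
    exact Nat.pow_le_pow_left (h.trans hN) _

end Pool.Agent.K9h53.AF
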