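import Pool.Agent.K9h53.AF.Core

set_option autoImplicit false

/-! # Few subfunctions of branching programs and of circuits with shared bits -/

namespace Pool.Agent.K9h53.AF

open Finset
open Pool.Agent.N452.TF (Word Leaf Ext ext ovr ovr_of_mem ovr_of_not)

variable {N : ℕ} {ι : Type} {D : ι → Type} {w q d : ℕ}

namespace BP

/-- The number of leaves which see a coordinate in `A`. -/
noncomputable def reads (A : Set ι) : {n : ℕ} → BP N ι D w q d n → ℕ
  | _, sinks => 0
  | _, node B _ _ F _ _ => B.reads A + F.reads A

/-- The number of inner nodes whose formulas see a coordinate in `A`. -/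
noncomputable def live (A : Set ι) : {n : ℕ} → BP N ι D w q d n → ℕ
  | _, sinks => 0
  | _, node B _ _ F _ _ => B.live A + if F.reads A = 0 then 0 else 1

theorem sees_iff (A : Set ι) : ∀ {n : ℕ} (B : BP N ι D w q d n), B.Sees A ↔ B.reads A ≠ 0
  | _, sinks => by simp [Sees, reads]
  | _, node B _ _ F _ _ => by
      simp only [Sees, reads, sees_iff A B, F.sees_iff A]
      omega

theorem live_le (A : Set ι) : ∀ {n : ℕ} (B : BP N ι D w q d n), B.live A ≤ n
  | _, sinks => by simp [live]
  | _, node B _ _ F _ _ => by
      have := live_le A B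
      simp only [live]
      split_ifs <;> omega

theorem live_le_reads (A : Set ι) : ∀ {n : ℕ} (B : BP N ι D w q d n), B.live A ≤ B.reads A
  | _, sinks => by simp [live]
  | _, node B _ _ F _ _ => by
      have := live_le_reads A B
      simp only [live, reads]
      split_ifs <;> omega

theorem nodes_le_size (c : ι → ℕ) : ∀ {n : ℕ} (B : BP N ι D w q d n), n ≤ B.size c
  | _, sinks => by simp [size]
  | _, node B _ _ F _ _ => by
      have := nodes_le_size c B
      simp only [size]
      omega

open Classical in
theorem sum_reads_le {ζ : Type} (I : Finset ζ) (A : ζ → Set ι) (c : ι → ℕ)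
    (hc : ∀ j, (I.filter (fun i => j ∈ A i)).card ≤ c j) :
    ∀ {n : ℕ} (B : BP N ι D w q d n), ∑ i ∈ I, B.reads (A i) ≤ B.size c
  | _, sinks => by simp [reads]
  | _, node B _ _ F _ _ => by
      simp only [reads, size, sum_add_distrib]
      have h1 := sum_reads_le I A c hc B
      have h2 := Fml.sum_reads_le I A c hc F
      omega

/-- The value does not depend on coordinates which are not seen. -/
theorem val_ovr (A : Set ι) (a z : ∀ i, D i) : ∀ {n : ℕ} (B : BP N ι D w q d n), B.reads A = 0 →
    ∀ v, B.val (ovr A a z) v = B.val z v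
  | _, sinks, _, v => rfl
  | _, node B Δ t F no yes, h, v => by
      simp only [reads] at h
      have h1 : F.accepts t (ovr A a z) = F.accepts t z := by
        unfold Fml.accepts
        rw [F.eval_ovr A (by omega)]
      have h2 := val_ovr A a z B (by omega)
      refine Fin.lastCases ?_ (fun u => ?_) v
      · simp only [val, Fin.lastCases_last, h1, h2]
      · simp only [val, Fin.lastCases_castSucc, h2]

open Classical in
/-- The functions at the nodes belong to a small family. -/
theorem families {Y : Type} [Fintype Y] (A : Set ι) (a : Y → ∀ i, D i) (c : ι → ℕ)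
    (hc : ∀ j ∈ A, 1 ≤ c j) (s M E : ℕ) (hq : 1 ≤ q)
    (hM : 4 * Fintype.card Y * (3 * s + 1) + 2 + s ≤ M) (hN : N ≤ M)
    (hE : E = 2 * M ^ (d ^ 2 + 4 * d + 3) * q ^ (w - 1)) :
    ∀ {n : ℕ} (B : BP N ι D w q d n), B.size c ≤ s →
    ∃ 𝒮 : Finset (Fin (B.live A + 2) → Y → Bool),
      𝒮.card ≤ (n + 2) ^ (2 * B.live A) * (2 * E ^ 2) ^ B.reads A ∧
      ∀ z : (∀ i, D i), ∃ t ∈ 𝒮, ∀ v : Fin (n + 2), ∃ j : Fin (B.live A + 2),
        ∀ u, B.val (ovr A (a u) z) v = t j u
  | _, sinks, _ => by
      refine ⟨{fun j _ => decide (j = 1)}, ?_, fun x => ⟨_, mem_singleton_self _, ?_⟩⟩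
      · rw [card_singleton]
        exact Nat.one_le_iff_ne_zero.2 (by simp [live, reads])
      intro v
      exact ⟨v, fun d => rfl⟩
  | _, @node _ _ _ _ _ _ n B Δ τ F no yes, hs => by
      obtain ⟨-, -, hE1⟩ := Fml.base_bound (M := M) (B := E) (q := q) (w := w) (d := d)
        (by omega) hq hE
      simp only [size] at hs
      obtain ⟨𝒮, hcard, hS⟩ := families A a c hc s M E hq hM hN hE B (by omega)
      have hpos : 1 ≤ (2 * E ^ 2) := by
        have : 1 ≤ E ^ 2 := Nat.one_le_pow _ _ hE1
        omega
      by_cases hF : F.reads A = 0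
      · have hr : (node B Δ τ F no yes).live A = B.live A := by simp [live, hF]
        rw [hr]
        refine ⟨𝒮, hcard.trans (Nat.mul_le_mul (Nat.pow_le_pow_left (by omega) _)
          (Nat.pow_le_pow_right hpos (by simp [reads]))), fun z => ?_⟩
        obtain ⟨t, ht, hv⟩ := hS z
        refine ⟨t, ht, fun v => ?_⟩
        have hacc : ∀ b, F.accepts τ (ovr A b z) = F.accepts τ z := by
          intro b
          unfold Fml.accepts
          rw [F.eval_ovr A hF]
        refine Fin.lastCases ?_ (fun u => ?_) v
        · cases hp : F.accepts τ z with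
          | true =>
            obtain ⟨j, hj⟩ := hv yes
            refine ⟨j, fun u => ?_⟩
            simp only [val, Fin.lastCases_last, hacc, hp, if_true]
            exact hj u
          | false =>
            obtain ⟨j, hj⟩ := hv no
            refine ⟨j, fun u => ?_⟩
            simp only [val, Fin.lastCases_last, hacc, hp, Bool.false_eq_true, if_false]
            exact hj u
        · obtain ⟨j, hj⟩ := hv u
          refine ⟨j, fun u' => ?_⟩
          simp only [val, Fin.lastCases_castSucc]
          exact hj u'
      · obtain ⟨S1, hS1, hS2⟩ := F.subfunctions A a c hc s M E hq hM hN hE τ (by omega)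
        have hr : (node B Δ τ F no yes).live A = B.live A + 1 := by simp [live, hF]
        rw [hr]
        refine ⟨((𝒮 ×ˢ (univ : Finset (Fin (B.live A + 2) × Fin (B.live A + 2)))) ×ˢ
          S1).image
          (fun a => Fin.lastCases (motive := fun _ => Y → Bool)
            (fun u => if a.2 u then a.1.1 a.1.2.1 u else a.1.1 a.1.2.2 u)
            (fun j => a.1.1 j)), ?_, ?_⟩
        · refine card_image_le.trans ?_
          rw [card_product, card_product, card_univ, Fintype.card_prod, Fintype.card_fin]
          have h1 : B.live A ≤ n := live_le A B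
          have hS3 : S1.card ≤ (2 * E ^ 2) ^ F.reads A := by
            refine hS1.trans ?_
            rw [mul_pow, ← pow_mul]
            apply Nat.mul_le_mul_right
            calc 2 = 2 ^ 1 := rfl
              _ ≤ 2 ^ F.reads A := Nat.pow_le_pow_right (by norm_num) (by omega)
          calc 𝒮.card * ((B.live A + 2) * (B.live A + 2)) * S1.card
              ≤ (((n + 1 + 2) ^ (2 * B.live A) * (2 * E ^ 2) ^ B.reads A) *
                  ((n + 1 + 2) * (n + 1 + 2))) * (2 * E ^ 2) ^ F.reads A := by
                apply Nat.mul_le_mul _ hS3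
                apply Nat.mul_le_mul
                · exact hcard.trans (Nat.mul_le_mul_right _ (Nat.pow_le_pow_left (by omega) _))
                · exact Nat.mul_le_mul (by omega) (by omega)
            _ = (n + 1 + 2) ^ (2 * (B.live A + 1)) *
                  (2 * E ^ 2) ^ (node B Δ τ F no yes).reads A := by
                simp only [reads]
                rw [show 2 * (B.live A + 1) = 2 * B.live A + 2 by ring, pow_add, pow_add]
                ring
        · intro z
          obtain ⟨t, ht, hv⟩ := hS z
          obtain ⟨j1, hj1⟩ := hv yes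
          obtain ⟨j2, hj2⟩ := hv no
          refine ⟨_, mem_image.2 ⟨((t, (j1, j2)), fun u => F.accepts τ (ovr A (a u) z)),
            mem_product.2 ⟨mem_product.2 ⟨ht, mem_univ _⟩, hS2 z⟩, rfl⟩, ?_⟩
          intro v
          refine Fin.lastCases ?_ (fun u => ?_) v
          · refine ⟨Fin.last _, fun u => ?_⟩
            simp only [val, Fin.lastCases_last]
            rw [hj1 u, hj2 u]
          · obtain ⟨j, hj⟩ := hv u
            refine ⟨j.castSucc, fun u' => ?_⟩
            simp only [val, Fin.lastCases_castSucc]
            exact hj u'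

open Classical in
/-- Few subfunctions. -/
theorem subfunctions {Y : Type} [Fintype Y] (A : Set ι) (a : Y → ∀ i, D i) (c : ι → ℕ)
    (hc : ∀ j ∈ A, 1 ≤ c j) (s M E : ℕ) (hq : 1 ≤ q)
    (hM : 4 * Fintype.card Y * (3 * s + 1) + 2 + s ≤ M) (hN : N ≤ M)
    (hE : E = 2 * M ^ (d ^ 2 + 4 * d + 3) * q ^ (w - 1)) {n : ℕ} (B : BP N ι D w q d n)
    (hs : B.size c ≤ s) (v : Fin (n + 2)) :
    ∃ S : Finset (Y → Bool), S.card ≤ M * (2 * M ^ 2 * E ^ 2) ^ B.reads A ∧
      ∀ z : (∀ i, D i), (fun u => B.val (ovr A (a u) z) v) ∈ S := by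
  obtain ⟨𝒮, hcard, hS⟩ := families A a c hc s M E hq hM hN hE B hs
  refine ⟨(𝒮 ×ˢ (univ : Finset (Fin (B.live A + 2)))).image (fun a => a.1 a.2), ?_, ?_⟩
  · refine card_image_le.trans ?_
    rw [card_product, card_univ, Fintype.card_fin]
    have h1 : B.live A ≤ n := live_le A B
    have h2 : B.live A ≤ B.reads A := live_le_reads A B
    have h3 : n ≤ B.size c := nodes_le_size c B
    have h4 : 1 ≤ M := by omega
    calc 𝒮.card * (B.live A + 2) ≤ (M ^ (2 * B.reads A) * (2 * E ^ 2) ^ B.reads A) * M := by
          apply Nat.mul_le_mul _ (by omega)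
          refine hcard.trans (Nat.mul_le_mul_right _ ?_)
          calc (n + 2) ^ (2 * B.live A) ≤ M ^ (2 * B.live A) :=
                Nat.pow_le_pow_left (by omega) _
            _ ≤ M ^ (2 * B.reads A) := Nat.pow_le_pow_right h4 (by omega)
      _ = _ := by
          rw [pow_mul, ← mul_pow]
          ring
  · intro z
    obtain ⟨t, ht, hv⟩ := hS z
    obtain ⟨j, hj⟩ := hv v
    exact mem_image.2 ⟨(t, j), mem_product.2 ⟨ht, mem_univ _⟩, by funext u; exact (hj u).symm⟩

end BP

namespace Circ

/-- The number of leaves which see the item `i` or a bit which depends on it. -/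
noncomputable def reads (i : ι) : {m : ℕ} → Circ N ι D w q d m → ℕ
  | _, nil => 0
  | _, snoc C P => C.reads i + P.bp.reads (C.Dep i)

theorem inl_mem_dep (i j : ι) : ∀ {m : ℕ} (C : Circ N ι D w q d m), Sum.inl j ∈ C.Dep i ↔ j = i
  | _, nil => by
      simp [Dep]
  | _, snoc C P => by
      constructor
      · rintro (h | ⟨k, h, -⟩ | ⟨h, -⟩)
        · exact Sum.inl.inj h
        · cases h
        · cases h
      · rintro rfl
        exact Or.inl rfl

theorem castSucc_mem_dep (i : ι) {m : ℕ} (C : Circ N ι D w q d m)
    (P : Program N (ι ⊕ Fin m) (Ext D m) w q d) (j : Fin m) :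
    Sum.inr j.castSucc ∈ (snoc C P).Dep i ↔ Sum.inr j ∈ C.Dep i := by
  constructor
  · rintro (h | ⟨k, h, h2⟩ | ⟨h, -⟩)
    · cases h
    · have h3 := Sum.inr.inj h
      rw [Fin.castSucc_inj.1 h3]
      exact h2
    · exact absurd (Sum.inr.inj h) (Fin.castSucc_lt_last j).ne
  · intro h
    exact Or.inr (Or.inl ⟨j, rfl, h⟩)

theorem last_mem_dep (i : ι) {m : ℕ} (C : Circ N ι D w q d m)
    (P : Program N (ι ⊕ Fin m) (Ext D m) w q d) :
    Sum.inr (Fin.last m) ∈ (snoc C P).Dep i ↔ P.bp.Sees (C.Dep i) := by
  constructor
  · rintro (h | ⟨k, h, -⟩ | ⟨-, h⟩)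
    · cases h
    · exact absurd (Sum.inr.inj h) (Fin.castSucc_lt_last k).ne'
    · exact h
  · intro h
    exact Or.inr (Or.inr ⟨rfl, h⟩)

open Classical in
theorem sum_reads_le (I : Finset ι) : ∀ {m : ℕ} (C : Circ N ι D w q d m),
    ∑ i ∈ I, C.reads i ≤ C.cost I
  | _, nil => by simp [reads]
  | _, snoc C P => by
      simp only [reads, cost, sum_add_distrib]
      have h1 := sum_reads_le I C
      have h2 := BP.sum_reads_le I (fun i => C.Dep i) (C.price I) (fun j => le_rfl) P.bp
      omega

/-- Bits which do not depend on an item. -/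
theorem val_of_not_dep [DecidableEq ι] (i : ι) (e : D i) (z : ∀ i, D i) :
    ∀ {m : ℕ} (C : Circ N ι D w q d m) (j : Fin m), Sum.inr j ∉ C.Dep i →
      C.val (Function.update z i e) j = C.val z j
  | _, nil, j, _ => j.elim0
  | _, snoc (m := m) C P, j, h => by
      revert h
      refine Fin.lastCases (fun h => ?_) (fun k h => ?_) j
      · rw [last_mem_dep, BP.sees_iff, not_not] at h
        simp only [val, Fin.lastCases_last]
        unfold Program.eval
        have e1 : ext (Function.update z i e) (C.val (Function.update z i e)) =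
            ovr (C.Dep i) (ext (Function.update z i e) (C.val (Function.update z i e)))
              (ext z (C.val z)) := by
          funext a
          by_cases ha : a ∈ C.Dep i
          · rw [ovr_of_mem ha]
          · rw [ovr_of_not ha]
            rcases a with a | a
            · have h2 : a ≠ i := fun h2 => ha ((inl_mem_dep i a C).2 h2)
              exact Function.update_of_ne h2 _ _
            · exact val_of_not_dep i e z C a ha
        rw [e1, BP.val_ovr _ _ _ _ h]
      · simp only [val, Fin.lastCases_castSucc]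
        exact val_of_not_dep i e z C k (fun h2 => h ((castSucc_mem_dep i C P k).2 h2))

open Classical in
/-- The functions of item `i` which are computed by the bits belong to a small family. -/
theorem families [DecidableEq ι] {Y : Type} [Fintype Y] (I : Finset ι) (i : ι) (hi : i ∈ I)
    (y : Y → D i) (z0 : ∀ i, D i) (s M E : ℕ) (hq : 1 ≤ q)
    (hM : 4 * Fintype.card Y * (3 * s + 1) + 2 + s ≤ M) (hN : N ≤ M)
    (hE : E = 2 * M ^ (d ^ 2 + 4 * d + 3) * q ^ (w - 1)) :
    ∀ {m : ℕ} (C : Circ N ι D w q d m), C.cost I ≤ s →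
    ∃ 𝒮 : Finset (Y → Fin m → Bool),
      𝒮.card ≤ (2 * M ^ 3 * E ^ 2) ^ C.reads i ∧
      ∀ z : (∀ i, D i), ∃ t ∈ 𝒮, ∀ j : Fin m, Sum.inr j ∈ C.Dep i →
        ∀ u, C.val (Function.update z i (y u)) j = t u j
  | _, nil, _ => by
      refine ⟨{fun _ j => j.elim0}, ?_, fun z => ⟨_, mem_singleton_self _, fun j => j.elim0⟩⟩
      simp [reads]
  | _, snoc (m := m) C P, hs => by
      obtain ⟨-, -, hE1⟩ := Fml.base_bound (M := M) (B := E) (q := q) (w := w) (d := d)
        (by omega) hq hE
      have hpos : 1 ≤ 2 * M ^ 3 * E ^ 2 := by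
        have h1 : 1 ≤ E ^ 2 := Nat.one_le_pow _ _ hE1
        have h2 : 1 ≤ M ^ 3 := Nat.one_le_pow _ _ (by omega)
        exact Nat.one_le_iff_ne_zero.2 (by positivity)
      simp only [cost] at hs
      obtain ⟨𝒮, hcard, hS⟩ := families I i hi y z0 s M E hq hM hN hE C (by omega)
      by_cases hP : P.bp.reads (C.Dep i) = 0
      · refine ⟨𝒮.image (fun t => fun u => Fin.lastCases (motive := fun _ => Bool) false
          (fun j => t u j)), ?_, fun z => ?_⟩
        · simp only [reads, hP, add_zero]
          exact card_image_le.trans hcard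
        · obtain ⟨t, ht, hv⟩ := hS z
          refine ⟨_, mem_image_of_mem _ ht, fun j => ?_⟩
          refine Fin.lastCases (fun h => ?_) (fun k h => ?_) j
          · rw [last_mem_dep, BP.sees_iff] at h
            exact absurd hP h
          · intro u
            simp only [val, Fin.lastCases_castSucc]
            exact hv k ((castSucc_mem_dep i C P k).1 h) u
      · -- the values of the coordinates which depend on the item
        obtain ⟨a, ha⟩ : ∃ a : (Y → Fin m → Bool) → Y → ∀ x, Ext D m x, a = fun t u =>
          ext (Function.update z0 i (y u)) (t u) := ⟨_, rfl⟩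
        have hc : ∀ j ∈ C.Dep i, 1 ≤ C.price I j := by
          intro j hj
          exact card_pos.2 ⟨i, mem_filter.2 ⟨hi, hj⟩⟩
        choose S hS1 hS2 using fun t => BP.subfunctions (C.Dep i) (a t) (C.price I) hc s M E
          hq hM hN hE P.bp (by omega) P.start
        refine ⟨𝒮.biUnion (fun t => (S t).image (fun p => fun u =>
          Fin.lastCases (motive := fun _ => Bool) (p u) (fun j => t u j))), ?_, fun z => ?_⟩
        · refine card_biUnion_le.trans ?_
          calc ∑ t ∈ 𝒮, ((S t).image (fun p => fun u =>
                Fin.lastCases (motive := fun _ => Bool) (p u) (fun j => t u j))).card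
              ≤ ∑ _t ∈ 𝒮, (2 * M ^ 3 * E ^ 2) ^ P.bp.reads (C.Dep i) := by
                apply sum_le_sum
                intro t _
                refine card_image_le.trans ((hS1 t).trans ?_)
                have h5 : 2 * M ^ 3 * E ^ 2 = M * (2 * M ^ 2 * E ^ 2) := by ring
                rw [h5, mul_pow M]
                apply Nat.mul_le_mul_right
                calc M = M ^ 1 := (pow_one M).symm
                  _ ≤ _ := Nat.pow_le_pow_right (by omega) (by omega)
            _ = 𝒮.card * (2 * M ^ 3 * E ^ 2) ^ P.bp.reads (C.Dep i) := by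
                rw [sum_const, smul_eq_mul]
            _ ≤ (2 * M ^ 3 * E ^ 2) ^ C.reads i *
                (2 * M ^ 3 * E ^ 2) ^ P.bp.reads (C.Dep i) := Nat.mul_le_mul_right _ hcard
            _ = _ := by
                rw [← pow_add]
                rfl
        · obtain ⟨t, ht, hv⟩ := hS z
          refine ⟨_, mem_biUnion.2 ⟨t, ht, mem_image_of_mem _ (hS2 t (ext z (C.val z)))⟩,
            fun j => ?_⟩
          refine Fin.lastCases (fun h => ?_) (fun k h => ?_) j
          · intro u
            simp only [val, Fin.lastCases_last]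
            unfold Program.eval
            congr 1
            funext x
            by_cases hx : x ∈ C.Dep i
            · rw [ovr_of_mem hx, ha]
              rcases x with x | x
              · have h2 : x = i := (inl_mem_dep i x C).1 hx
                subst h2
                simp only [Pool.Agent.N452.TF.ext, Function.update_self]
                try rfl
              · exact hv x hx u
            · rw [ovr_of_not hx]
              rcases x with x | x
              · have h2 : x ≠ i := fun h2 => hx ((inl_mem_dep i x C).2 h2)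
                exact Function.update_of_ne h2 _ _
              · exact val_of_not_dep i _ z C x hx
          · intro u
            simp only [val, Fin.lastCases_castSucc]
            exact hv k ((castSucc_mem_dep i C P k).1 h) u

end Circ

open Classical in
/-- Few subfunctions. -/
theorem Circuit.subfunctions [DecidableEq ι] {Y : Type} [Fintype Y] (I : Finset ι) (i : ι)
    (hi : i ∈ I) (y : Y → D i) (s M E : ℕ) (hq : 1 ≤ q)
    (hM : 4 * Fintype.card Y * (3 * s + 1) + 2 + s ≤ M) (hN : N ≤ M)
    (hE : E = 2 * M ^ (d ^ 2 + 4 * d + 3) * q ^ (w - 1)) (C : Circuit N ι D w q d)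
    (hs : C.circ.cost I ≤ s) :
    ∃ S : Finset (Y → Bool), S.card ≤ 2 * (2 * M ^ 3 * E ^ 2) ^ C.circ.reads i ∧
      ∀ z : (∀ i, D i), (fun u => C.eval (Function.update z i (y u))) ∈ S := by
  obtain ⟨-, -, hE1⟩ := Fml.base_bound (M := M) (B := E) (q := q) (w := w) (d := d)
    (by omega) hq hE
  have hpos : 1 ≤ (2 * M ^ 3 * E ^ 2) ^ C.circ.reads i := by
    have h1 : 1 ≤ E ^ 2 := Nat.one_le_pow _ _ hE1
    have h2 : 1 ≤ M ^ 3 := Nat.one_le_pow _ _ (by omega)
    apply Nat.one_le_pow
    exact Nat.one_le_iff_ne_zero.2 (by positivity)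
  by_cases hne : Nonempty (∀ i, D i)
  · obtain ⟨z0⟩ := hne
    by_cases hd : Sum.inr (Fin.last _) ∈ C.circ.Dep i
    · obtain ⟨𝒮, hcard, hS⟩ := Circ.families I i hi y z0 s M E hq hM hN hE C.circ hs
      refine ⟨𝒮.image (fun t => fun u => t u (Fin.last _)), ?_, fun z => ?_⟩
      · refine card_image_le.trans (hcard.trans ?_)
        omega
      · obtain ⟨t, ht, hv⟩ := hS z
        refine mem_image.2 ⟨t, ht, ?_⟩
        funext u
        exact (hv _ hd u).symm
    · refine ⟨(univ : Finset Bool).image (fun c => fun _ => c), ?_, fun z => ?_⟩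
      · refine card_image_le.trans ?_
        rw [card_univ, Fintype.card_bool]
        omega
      · rw [mem_image]
        refine ⟨C.eval z, mem_univ _, ?_⟩
        funext u
        exact (Circ.val_of_not_dep i (y u) z C.circ _ hd).symm
  · refine ⟨∅, by simp, fun z => absurd ⟨z⟩ hne⟩

end Pool.Agent.K9h53.AF
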