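import Pool.Agent.K9h53.AF.Lower
import Pool.Agent.N452.TF.ThreeSum

set_option autoImplicit false

/-! # 3SUM and circuits over arbitrary rings with tests -/

namespace Pool.Agent.K9h53.AF

open Finset Pool.Agent.TH697.Form Pool.Agent.TH697.Row Pool.Agent.TH697.Form.ThreeSum
open Pool.Agent.TH457.Ary.ZeroSum Pool.Agent.TH457.Ary.ThreeSum Pool.Agent.Y638.RF
open Pool.Agent.N452.TF.Xor (pairs)

variable {n c w d : ℕ}

/-- the arithmetic -/
theorem arith {n g c w d N L s : ℝ} (hn : 1000 ≤ n) (hg : 8 ≤ g) (hc : 1 ≤ c) (hw : 1 ≤ w)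
    (hd : 1 ≤ d) (hN : n * g / 7 ≤ N) (hL0 : 0 ≤ L) (hL : L ≤ 4 / 3 * c * g)
    (hs : 0 ≤ s)
    (h : n * ((49 / 600 - 0) * N - 1) ≤
      (3 + (2 * d ^ 2 + 8 * d + 9) * (5 * L) + 2 * (w - 1) * L) * s) :
    n ^ 2 ≤ 12000 * c * (w + d ^ 2) * s := by
  have h0 : 1000 * g ≤ n * g := mul_le_mul_of_nonneg_right hn (by linarith)
  have h1 : n * g / 90 ≤ (49 / 600 - 0) * N - 1 := by linarith
  have h2 : n * (n * g / 90) ≤ n * ((49 / 600 - 0) * N - 1) :=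
    mul_le_mul_of_nonneg_left h1 (by linarith)
  have hd2 : 1 ≤ d ^ 2 := by nlinarith
  have hcg : 0 ≤ c * g := by positivity
  have h3 : 3 + (2 * d ^ 2 + 8 * d + 9) * (5 * L) + 2 * (w - 1) * L ≤
      130 * (c * (w + d ^ 2)) * g := by
    have h4 : (w - 1) * L ≤ (w - 1) * (4 / 3 * c * g) := mul_le_mul_of_nonneg_left hL (by linarith)
    have h5 : 2 * d ^ 2 + 8 * d + 9 ≤ 19 * d ^ 2 := by nlinarith
    have h6 : (2 * d ^ 2 + 8 * d + 9) * (5 * L) ≤ 19 * d ^ 2 * (5 * (4 / 3 * c * g)) := by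
      apply mul_le_mul h5 (by linarith) (by linarith) (by positivity)
    have h7 : g ≤ c * g := by nlinarith
    have h8 : c * g ≤ d ^ 2 * (c * g) := by nlinarith
    have h9 : 0 ≤ w * (c * g) := by positivity
    have e1 : (w - 1) * (4 / 3 * c * g) = 4 / 3 * (w * (c * g)) - 4 / 3 * (c * g) := by ring
    have e2 : 19 * d ^ 2 * (5 * (4 / 3 * c * g)) = 380 / 3 * (d ^ 2 * (c * g)) := by ring
    have e3 : 130 * (c * (w + d ^ 2)) * g = 130 * (w * (c * g)) + 130 * (d ^ 2 * (c * g)) := by ring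
    rw [e1] at h4
    rw [e2] at h6
    rw [e3]
    linarith
  have h4 := mul_le_mul_of_nonneg_right h3 hs
  have h5 : g * n ^ 2 ≤ g * (12000 * c * (w + d ^ 2) * s) := by
    have e1 : n * (n * g / 90) = g * n ^ 2 / 90 := by ring
    have e2 : 130 * (c * (w + d ^ 2)) * g * s = g * (11700 * c * (w + d ^ 2) * s) / 90 := by ring
    rw [e1] at h2
    rw [e2] at h4
    have h6 : 0 ≤ g * (c * (w + d ^ 2) * s) := by positivity
    have e3 : g * (12000 * c * (w + d ^ 2) * s) = g * (11700 * c * (w + d ^ 2) * s) +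
      300 * (g * (c * (w + d ^ 2) * s)) := by ring
    rw [e3]
    linarith
  exact le_of_mul_le_mul_left h5 (by linarith)

theorem bound_of (f : (∀ i, Item n n i) → Bool)
    (hasks : ∀ b : ℕ, 2 * (b * 2 ^ b) ≤ n → ∀ i : Fin n,
      Asks (Fin (n / 2) × Fin b) (n ^ 2) 0 (Valid n n) f (some i))
    (hn : 1000 ≤ n) (hc : 1 ≤ c) (hw : 1 ≤ w) (hd : 1 ≤ d)
    {Ω : Type} [Fintype Ω] (μ : Ω → ℝ) (hμ : IsProb μ) (s : ℕ)
    (C : Ω → Circuit ((2 * n) ^ c) (Option (Fin n)) (Item n n) w ((2 * n) ^ c) d)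
    (hs : ∀ ω, (C ω).circ.cost (pairs n) ≤ s)
    (hF : ApproximatesOn μ (fun ω => (C ω).eval) (Valid n n) f) :
    (n : ℝ) ^ 2 ≤ 12000 * c * (w + (d : ℝ) ^ 2) * s := by
  classical
  have hw' : (1 : ℝ) ≤ w := by exact_mod_cast hw
  have hc' : (1 : ℝ) ≤ c := by exact_mod_cast hc
  have hd' : (1 : ℝ) ≤ d := by exact_mod_cast hd
  have hs0 : (0 : ℝ) ≤ s := Nat.cast_nonneg s
  by_cases hsn : n ^ 2 ≤ s
  · have h1 : (n : ℝ) ^ 2 ≤ s := by exact_mod_cast hsn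
    have h2 : (1 : ℝ) ≤ w + (d : ℝ) ^ 2 := by nlinarith
    have h3 : (1 : ℝ) ≤ 12000 * c * (w + (d : ℝ) ^ 2) := by nlinarith
    nlinarith
  obtain ⟨b, hb, hL, hb2⟩ := params (n := n) (by omega)
  have hq : 2 * n ≤ (2 * n) ^ c := Nat.le_self_pow (by omega) _
  have hqM : (2 * n) ^ c ≤ ((2 * n) ^ c) ^ 5 := Nat.le_self_pow (by omega) _
  have hM : 4 * n ^ 2 * (3 * s + 1) + 2 + s ≤ ((2 * n) ^ c) ^ 5 := by
    have h1 : s < n ^ 2 := by omega
    have h2 : 4 * n ^ 2 * (3 * s + 1) ≤ 4 * n ^ 2 * (3 * n ^ 2) := Nat.mul_le_mul_left _ (by omega)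
    have h3 : 4 * n ^ 2 * (3 * n ^ 2) = 12 * n ^ 4 := by ring
    have h4 : n ^ 2 ≤ n ^ 4 := Nat.pow_le_pow_right (by omega) (by norm_num)
    have h5 : 16 * n ^ 4 ≤ n ^ 5 := by
      calc 16 * n ^ 4 ≤ n * n ^ 4 := Nat.mul_le_mul_right _ (by omega)
        _ = n ^ 5 := by ring
    have h6 : 1 ≤ n ^ 4 := Nat.one_le_pow _ _ (by omega)
    have h7 : n ^ 5 ≤ ((2 * n) ^ c) ^ 5 := Nat.pow_le_pow_left (by omega) _
    omega
  have h := circuit_lower μ hμ s C (Valid n n) f hF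
    (Nat.one_le_pow _ _ (by omega)) hw (n ^ 2) (((2 * n) ^ c) ^ 5) hM hqM 0 (pairs n) hs
    (T := Fin (n / 2) × Fin b) (by
      intro a ha
      unfold pairs at ha
      rw [mem_map] at ha
      obtain ⟨i, -, rfl⟩ := ha
      exact hasks b hb i)
  unfold pairs at h
  rw [card_map, card_univ, Fintype.card_fin, Nat.cast_pow ((2 * n) ^ c) 5] at h
  rw [Real.logb_pow] at h
  push_cast at h
  refine arith (L := Real.logb 2 (((2 * n) ^ c : ℕ) : ℝ))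
    (g := Nat.log 2 n) (N := ((Fintype.card (Fin (n / 2) × Fin b) : ℕ) : ℝ))
    (by exact_mod_cast hn) (by exact_mod_cast hL) hc' hw' hd' (card_T (by omega) hb2)
    (Real.logb_nonneg (by norm_num) (by exact_mod_cast (by omega : 1 ≤ (2 * n) ^ c)))
    (logb_q (by omega) hL) hs0 ?_
  push_cast
  exact h

theorem zero_sum (hn : 1000 ≤ n) (hc : 1 ≤ c) (hw : 1 ≤ w) (hd : 1 ≤ d)
    {Ω : Type} [Fintype Ω] (μ : Ω → ℝ) (hμ : IsProb μ) (s : ℕ)
    (C : Ω → Circuit ((2 * n) ^ c) (Option (Fin n)) (Item n n) w ((2 * n) ^ c) d)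
    (hs : ∀ ω, (C ω).circ.cost (pairs n) ≤ s)
    (hF : ApproximatesOn μ (fun ω => (C ω).eval) (Valid n n) (zeroSum n)) :
    (n : ℝ) ^ 2 ≤ 12000 * c * (w + (d : ℝ) ^ 2) * s :=
  bound_of _ (fun _ hb i => Pool.Agent.Y638.RF.ZeroSum.asks hb (by omega) i) hn hc hw hd μ hμ s C
    hs hF

end Pool.Agent.K9h53.AF
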